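import Pool.Agent.W587.MX.Stm

/-!
Project MX, part T4 (finite branch).
-/

set_option autoImplicit false

namespace Pool.Agent.W153.MX

open Pool.Agent.W587.MX
open Set Filter Topology Metric

theorem brf (hT2 : T2_ROOT) : T4_BRF := by
  intro f zs as hf hfz heq hne
  have hfA : ∀ z, AnalyticAt ℂ f z := fun z =>
    (Complex.analyticOnNhd_univ_iff_differentiable.2 hf) z (mem_univ z)
  have hdA : ∀ z, AnalyticAt ℂ (deriv f) z := fun z => (hfA z).deriv
  have hfe : ∀ᶠ z in 𝓝 zs, f z ≠ 0 := hf.continuous.continuousAt.eventually_ne hfz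
  obtain ⟨e, he, φ, ψ, hφ, hψ, hφ0, hψ0, h1, h2, h3⟩ :=
    hT2 (fun z => z * deriv f z / f z - as) zs
      (((analyticAt_id.mul (hdA zs)).div (hfA zs) hfz).sub analyticAt_const)
      (by
        show zs * deriv f zs / f zs - as = 0
        rw [heq]; field_simp; ring)
      (by
        intro hev
        apply hne
        have hz : ∀ᶠ z in 𝓝 zs, z * deriv f z = as * f z := by
          filter_upwards [hev, hfe] with z h hz
          have h' : z * deriv f z / f z = as := by linear_combination h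
          rw [div_eq_iff hz] at h'
          exact h'
        have hA : AnalyticOnNhd ℂ (fun z => z * deriv f z) univ := fun z _ =>
          analyticAt_id.mul (hdA z)
        have hB : AnalyticOnNhd ℂ (fun z => as * f z) univ := fun z _ =>
          analyticAt_const.mul (hfA z)
        have := AnalyticOnNhd.eq_of_eventuallyEq hA hB hz
        intro z
        exact congrFun this z)
  have hP : ∀ᶠ u in 𝓝 (0 : ℂ), AnalyticAt ℂ ψ u ∧ φ (ψ u) = u ∧ f (ψ u) ≠ 0 ∧
      ψ u * deriv f (ψ u) / f (ψ u) - as = φ (ψ u) ^ e := by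
    have hc : Tendsto ψ (𝓝 0) (𝓝 zs) := by
      have := hψ.continuousAt.tendsto
      rwa [hψ0] at this
    filter_upwards [hψ.eventually_analyticAt, h2, hc.eventually hfe, hc.eventually h3]
      with u a b c d
    exact ⟨a, b, c, d⟩
  obtain ⟨ε, hε, hball⟩ := Metric.eventually_nhds_iff_ball.1 hP
  refine ⟨e, he, min ε 1, lt_min hε one_pos, min_le_right _ _, ?_⟩
  intro k hk
  filter_upwards [hfe, h1, h3] with z hz1 hz2 hz3 t ht hzt
  have hk0 : k ≠ 0 := by omega
  have he0 : e ≠ 0 := by omega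
  have hφe : φ z ^ e = (t ^ k) ^ e := by
    rw [← hz3, hzt, mul_div_assoc, div_self hz1, mul_one, ← pow_mul, mul_comm k e]
    ring
  obtain ⟨ζ, hζe, hζ⟩ : ∃ ζ : ℂ, ζ ^ e = 1 ∧ φ z = ζ * t ^ k := by
    by_cases ht0 : t = 0
    · refine ⟨1, one_pow e, ?_⟩
      rw [ht0, zero_pow hk0, zero_pow he0] at hφe
      rw [ht0, zero_pow hk0, mul_zero]
      exact pow_eq_zero_iff he0 |>.1 hφe
    · have htk : t ^ k ≠ 0 := pow_ne_zero _ ht0
      refine ⟨φ z / t ^ k, ?_, ?_⟩
      · rw [div_pow, hφe, div_self (pow_ne_zero _ htk)]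
      · field_simp
  have hζn : ‖ζ‖ = 1 := by
    have hn : ‖ζ‖ ^ e = 1 := by rw [← norm_pow, hζe, norm_one]
    exact (pow_eq_one_iff_of_nonneg (norm_nonneg _) he0).1 hn
  have hmem : ∀ u ∈ ball (0 : ℂ) (min ε 1), ζ * u ^ k ∈ ball (0 : ℂ) ε := by
    intro u hu
    rw [mem_ball_zero_iff] at hu ⊢
    have hu1 : ‖u‖ < 1 := lt_of_lt_of_le hu (min_le_right _ _)
    have hu2 : ‖u‖ < ε := lt_of_lt_of_le hu (min_le_left _ _)
    rw [norm_mul, hζn, one_mul, norm_pow]
    calc ‖u‖ ^ k ≤ ‖u‖ ^ 1 := pow_le_pow_of_le_one (norm_nonneg _) hu1.le hk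
      _ = ‖u‖ := pow_one _
      _ < ε := hu2
  refine ⟨fun u => ψ (ζ * u ^ k), ?_, ?_, ?_, ?_⟩
  · intro u hu
    have hin : DifferentiableAt ℂ (fun u : ℂ => ζ * u ^ k) u := by fun_prop
    exact ((hball _ (hmem u hu)).1.differentiableAt.comp u hin).differentiableWithinAt
  · show ψ (ζ * 0 ^ k) = zs
    rw [zero_pow hk0, mul_zero, hψ0]
  · show ψ (ζ * t ^ k) = z
    rw [← hζ, hz2]
  · intro u hu
    obtain ⟨_, b, c, d⟩ := hball _ (hmem u hu)
    refine ⟨c, ?_⟩
    show ψ (ζ * u ^ k) * deriv f (ψ (ζ * u ^ k)) = (as + u ^ (e * k)) * f (ψ (ζ * u ^ k))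
    rw [b, mul_pow, hζe, one_mul, ← pow_mul, mul_comm k e] at d
    have d' : ψ (ζ * u ^ k) * deriv f (ψ (ζ * u ^ k)) / f (ψ (ζ * u ^ k)) = as + u ^ (e * k) := by
      linear_combination d
    rw [div_eq_iff c] at d'
    exact d'

end Pool.Agent.W153.MX
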